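import Mathlib

set_option autoImplicit false

/-! Piece BAD of the project TW (pure finite group theory). The theorem `t_BAD` is the statement
`Pool.Agent.K1H79.TW.S_BAD`, written out (Mathlib only). -/

namespace Pool.Agent.K1H36.TW

lemma cyc {C : Type*} [Group C] [Finite C] [IsCyclic C] (z y : C) (h : orderOf y = orderOf z) :
    y ∈ Subgroup.zpowers z := by
  classical
  have := Fintype.ofFinite C
  have hpos : 0 < orderOf z := orderOf_pos z
  have hT : (Finset.univ.filter fun a : C => a ^ orderOf z = 1).card ≤ orderOf z :=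
    IsCyclic.card_pow_eq_one_le hpos
  have hI : ((Finset.range (orderOf z)).image fun i => z ^ i).card = orderOf z := by
    rw [Finset.card_image_of_injOn, Finset.card_range]
    intro i hi j hj hij
    exact pow_injOn_Iio_orderOf (by simpa using hi) (by simpa using hj) hij
  have hsub : ((Finset.range (orderOf z)).image fun i => z ^ i) ⊆
      Finset.univ.filter fun a : C => a ^ orderOf z = 1 := by
    intro a ha
    rw [Finset.mem_image] at ha
    obtain ⟨i, -, rfl⟩ := ha
    simp only [Finset.mem_filter, Finset.mem_univ, true_and]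
    rw [← pow_mul, mul_comm, pow_mul, pow_orderOf_eq_one, one_pow]
  have heq := Finset.eq_of_subset_of_card_le hsub (hT.trans hI.ge)
  have hy : y ∈ Finset.univ.filter fun a : C => a ^ orderOf z = 1 := by
    simp only [Finset.mem_filter, Finset.mem_univ, true_and]
    rw [← h, pow_orderOf_eq_one]
  rw [← heq, Finset.mem_image] at hy
  obtain ⟨i, -, hi⟩ := hy
  exact ⟨(i : ℤ), by simpa using hi⟩

lemma comm_of_zpowers {G : Type*} [Group G] {c a b : G} (ha : a ∈ Subgroup.zpowers c)
    (hb : b ∈ Subgroup.zpowers c) : Commute a b := by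
  obtain ⟨i, rfl⟩ := ha
  obtain ⟨j, rfl⟩ := hb
  exact (Commute.refl c).zpow_zpow i j

theorem t_BAD : ∀ (G : Type) [Group G] [Finite G] (M : Subgroup G), M.Normal → M ≠ ⊥ →
    (∀ g : G, ∃ x ∈ M, ∀ y ∈ M, y ∈ Subgroup.zpowers (g * x)) →
    ∃ z ∈ Subgroup.center G, z ∈ M ∧ (orderOf z).Prime ∧
      ∀ y : G, orderOf y = orderOf z → y ∈ Subgroup.zpowers z := by
  intro G _ _ M _ hM h
  have hab : ∀ y ∈ M, ∀ y' ∈ M, Commute y y' := by
    obtain ⟨x, -, hx⟩ := h 1
    intro y hy y' hy'
    exact comm_of_zpowers (hx y hy) (hx y' hy')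
  have hcen : ∀ m ∈ M, ∀ g : G, Commute m g := by
    intro m hm g
    obtain ⟨x, hxM, hx⟩ := h g
    have h1 : Commute m (g * x) := comm_of_zpowers (hx m hm) (Subgroup.mem_zpowers _)
    have h2 : Commute m x := hab m hm x hxM
    have h3 : Commute m (g * x * x⁻¹) := h1.mul_right h2.inv_right
    simpa using h3
  obtain ⟨p, hp, hpd⟩ : ∃ p : ℕ, p.Prime ∧ p ∣ Nat.card M := by
    apply Nat.exists_prime_and_dvd
    intro h1
    exact hM (Subgroup.card_eq_one.mp h1)
  have : Fact p.Prime := ⟨hp⟩
  obtain ⟨z, hz⟩ := exists_prime_orderOf_dvd_card' (G := M) p hpd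
  have hz' : orderOf (z : G) = p := by rw [Subgroup.orderOf_coe, hz]
  refine ⟨(z : G), ?_, z.2, by rw [hz']; exact hp, ?_⟩
  · rw [Subgroup.mem_center_iff]
    intro g
    exact ((hcen z z.2 g).eq).symm
  · intro y hy
    obtain ⟨x, hxM, hx⟩ := h y
    have hzC : (z : G) ∈ Subgroup.zpowers (y * x) := hx z z.2
    have hxC : x ∈ Subgroup.zpowers (y * x) := hx x hxM
    have hyC : y ∈ Subgroup.zpowers (y * x) := by
      have := Subgroup.mul_mem _ (Subgroup.mem_zpowers (y * x)) (Subgroup.inv_mem _ hxC)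
      simpa using this
    have h1 := cyc (C := Subgroup.zpowers (y * x)) ⟨(z : G), hzC⟩ ⟨y, hyC⟩ (by
      rw [← Subgroup.orderOf_coe, ← Subgroup.orderOf_coe]
      exact hy)
    obtain ⟨i, hi⟩ := h1
    refine ⟨i, ?_⟩
    have := congrArg Subtype.val hi
    simpa using this

end Pool.Agent.K1H36.TW
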