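import Pool.Agent.K1H36.TW.Defs

set_option autoImplicit false

open Finset

namespace Pool.Agent.K1H36.TW

/-! ### Linear forms on the edges of the complete tripartite graph -/

section forms

variable {m : ℕ}

/-- The first vertex of an edge. -/
def src (v : Var m) : Fin 3 × Fin m := (v.1, v.2.1)

/-- The second vertex of an edge. -/
def dst (v : Var m) : Fin 3 × Fin m := (v.1 + 1, v.2.2)

theorem src_ne_dst (v v' : Var m) (h : v.1 = v'.1) : src v ≠ dst v' := by
  intro h'
  have h1 : v.1 = v'.1 + 1 := congrArg Prod.fst h'
  rw [h] at h1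
  generalize v'.1 = s at h1
  fin_cases s <;> simp at h1

theorem ext_edge {v v' : Var m} (h1 : src v = src v') (h2 : dst v = dst v') : v = v' := by
  obtain ⟨s, i, j⟩ := v
  obtain ⟨s', i', j'⟩ := v'
  simp only [src, dst, Prod.mk.injEq] at h1 h2
  simp only [Prod.mk.injEq]
  exact ⟨h1.1, h1.2, h2.2⟩

theorem fst_src {v v' : Var m} (h : src v = src v') : v.1 = v'.1 := (Prod.mk.inj h).1

/-- The boundary of a form. -/
def bd (c : Var m → ℤ) (p : Fin 3 × Fin m) : ℤ :=
  ∑ v, c v * ((if src v = p then 1 else 0) - (if dst v = p then 1 else 0))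

theorem sum_diff (c : Var m → ℤ) (z : Fin 3 × Fin m → ℤ) :
    ∑ v, c v * diff z v = ∑ p, z p * bd c p := by
  have h1 : ∀ v : Var m, diff z v =
      ∑ p, z p * ((if src v = p then 1 else 0) - (if dst v = p then 1 else 0)) := by
    intro v
    simp only [mul_sub, Finset.sum_sub_distrib, mul_ite, mul_one, mul_zero, Finset.sum_ite_eq,
      mem_univ, if_true]
    rfl
  simp only [h1, bd, Finset.mul_sum]
  rw [Finset.sum_comm]
  refine Finset.sum_congr rfl fun p _ => Finset.sum_congr rfl fun v _ => ?_
  ring

/-- Every vertex of the support is in two edges of the support. -/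
theorem two_edges {c : Var m → ℤ} (hc : ∀ p, bd c p = 0) {v : Var m} (hv : c v ≠ 0)
    {p : Fin 3 × Fin m} (hp : src v = p ∨ dst v = p) :
    ∃ v', v' ≠ v ∧ c v' ≠ 0 ∧ (src v' = p ∨ dst v' = p) := by
  by_contra hcon
  push Not at hcon
  have h1 := hc p
  rw [bd, Finset.sum_eq_single v] at h1
  · have h2 := src_ne_dst v v rfl
    rcases hp with hp | hp
    · rw [if_pos hp, if_neg (fun h => h2 (hp.trans h.symm))] at h1
      simp at h1
      exact hv h1
    · rw [if_neg (fun h => h2 (h.trans hp.symm)), if_pos hp] at h1
      simp at h1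
      exact hv h1
  · intro v' _ hv'
    by_cases h3 : c v' = 0
    · rw [h3, zero_mul]
    · have := hcon v' hv' h3
      rw [if_neg this.1, if_neg this.2]
      ring
  · intro h
    exact absurd (mem_univ _) h

/-- The indicator function of a triangle. -/
def ind (T : Fin 3 → Fin m) (v : Var m) : ℤ :=
  if v.2.1 = T v.1 ∧ v.2.2 = T (v.1 + 1) then 1 else 0

theorem third (u s : Fin 3) (h1 : u ≠ s) (h2 : u ≠ s + 1) : u = s + 2 := by
  revert u s
  decide

/-- A form with at most three edges and without boundary is a multiple of a triangle. -/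
theorem structure_lemma {c : Var m → ℤ} (hc : ∀ p, bd c p = 0)
    (h3 : (univ.filter fun v => c v ≠ 0).card ≤ 3) :
    c = 0 ∨ ∃ (T : Fin 3 → Fin m) (τ : ℤ), τ ≠ 0 ∧ ∀ v, c v = τ * ind T v := by
  classical
  by_cases h0 : c = 0
  · exact Or.inl h0
  right
  obtain ⟨e, he⟩ : ∃ e, c e ≠ 0 := by
    by_contra hcon
    push Not at hcon
    exact h0 (funext hcon)
  obtain ⟨f, hfe, hf, hfp⟩ := two_edges hc he (Or.inl rfl : src e = src e ∨ dst e = src e)
  obtain ⟨g, hge, hg, hgp⟩ := two_edges hc he (Or.inr rfl : src e = dst e ∨ dst e = dst e)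
  -- only `e` touches both vertices of `e`
  have honly : ∀ v : Var m, (src v = src e ∨ dst v = src e) → (src v = dst e ∨ dst v = dst e) →
      v = e := by
    intro v h1 h2
    rcases h1 with h1 | h1 <;> rcases h2 with h2 | h2
    · exact absurd (h1.symm.trans h2) (src_ne_dst e e rfl)
    · exact ext_edge h1 h2
    · exfalso
      have h4 : v.1 + 1 = e.1 := congrArg Prod.fst h1
      have h5 : v.1 = e.1 + 1 := congrArg Prod.fst h2
      rw [h5] at h4
      generalize e.1 = s at h4
      fin_cases s <;> simp at h4
    · exact absurd (h1.symm.trans h2) (src_ne_dst e e rfl)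
  have hfg : f ≠ g := by
    intro h
    rw [← h] at hgp
    exact hfe (honly f hfp hgp)
  have hsupp : ∀ v, c v ≠ 0 → v = e ∨ v = f ∨ v = g := by
    intro v hv
    by_contra hcon
    push Not at hcon
    have h4 : ({e, f, g, v} : Finset (Var m)) ⊆ univ.filter fun v => c v ≠ 0 := by
      intro u hu
      simp only [mem_insert, mem_singleton] at hu
      rw [mem_filter]
      refine ⟨mem_univ _, ?_⟩
      rcases hu with rfl | rfl | rfl | rfl <;> assumption
    have h5 := card_le_card h4
    have h6 : ({e, f, g, v} : Finset (Var m)).card = 4 := by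
      rw [card_insert_of_notMem, card_insert_of_notMem, card_insert_of_notMem, card_singleton]
      · simp only [mem_singleton]
        exact fun h => hcon.2.2 h.symm
      · simp only [mem_insert, mem_singleton]
        rintro (h | h)
        · exact hfg h
        · exact hcon.2.1 h.symm
      · simp only [mem_insert, mem_singleton]
        rintro (h | h | h)
        · exact hfe h.symm
        · exact hge h.symm
        · exact hcon.1 h.symm
    omega
  -- the other vertex of `f`
  have hkey : dst f = src e ∧ src g = dst e ∧ src f = dst g := by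
    rcases hfp with hfp | hfp
    · -- `f` leaves the same vertex
      exfalso
      obtain ⟨f', hf'f, hf', hf'p⟩ := two_edges hc hf (Or.inr rfl : src f = dst f ∨ dst f = dst f)
      have hs : f.1 = e.1 := fst_src hfp
      rcases hsupp f' hf' with h | h | h
      · rw [h] at hf'p
        rcases hf'p with h' | h'
        · exact src_ne_dst e f hs.symm h'
        · exact hfe (ext_edge hfp h'.symm)
      · exact hf'f h
      · rw [h] at hf'p
        -- `g` touches `dst e` and `dst f`, both in the same part
        have hgpart : ∀ q q' : Fin 3 × Fin m, q.1 = q'.1 → (src g = q ∨ dst g = q) →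
            (src g = q' ∨ dst g = q') → q = q' := by
          intro q q' hq h1 h2
          rcases h1 with h1 | h1 <;> rcases h2 with h2 | h2
          · exact h1.symm.trans h2
          · exfalso
            have h6 : g.1 = q.1 := congrArg Prod.fst h1
            have h7 : g.1 + 1 = q'.1 := congrArg Prod.fst h2
            rw [← hq, ← h6] at h7
            generalize g.1 = s at h7
            fin_cases s <;> simp at h7
          · exfalso
            have h6 : g.1 = q'.1 := congrArg Prod.fst h2
            have h7 : g.1 + 1 = q.1 := congrArg Prod.fst h1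
            rw [hq, ← h6] at h7
            generalize g.1 = s at h7
            fin_cases s <;> simp at h7
          · exact h1.symm.trans h2
        have h8 : dst e = dst f := hgpart _ _ (by simp only [dst]; rw [hs]) hgp hf'p
        exact hfe (ext_edge hfp h8.symm)
    · obtain ⟨f', hf'f, hf', hf'p⟩ := two_edges hc hf (Or.inl rfl : src f = src f ∨ dst f = src f)
      have hs : f.1 + 1 = e.1 := congrArg Prod.fst hfp
      have hg' : src g = src f ∨ dst g = src f := by
        rcases hsupp f' hf' with h | h | h
        · exfalso
          rw [h] at hf'p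
          rcases hf'p with h' | h'
          · have h9 : e.1 = f.1 := fst_src h'
            rw [h9] at hs
            generalize f.1 = s at hs
            fin_cases s <;> simp at hs
          · have h9 : e.1 + 1 = f.1 := congrArg Prod.fst h'
            exact hfe (honly f (Or.inr hfp) (Or.inl h'.symm))
        · exact absurd h hf'f
        · rwa [h] at hf'p
      have h10 : src f ≠ dst e := by
        intro h
        exact hfe (honly f (Or.inr hfp) (Or.inl h))
      rcases hgp with hgp | hgp
      · refine ⟨hfp, hgp, ?_⟩
        rcases hg' with h | h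
        · exact absurd (h.symm.trans hgp) h10
        · exact h.symm
      · exfalso
        rcases hg' with h | h
        · have h11 : g.1 = f.1 := fst_src h
          have h12 : g.1 + 1 = e.1 + 1 := congrArg Prod.fst hgp
          rw [h11, ← hs] at h12
          generalize f.1 = s at h12
          fin_cases s <;> simp at h12
        · exact h10 (h.symm.trans hgp)
  obtain ⟨k1, k2, k3⟩ := hkey
  -- the coefficients
  have hne : e ≠ f ∧ e ≠ g := ⟨hfe.symm, hge.symm⟩
  have hsum : ∀ F : Var m → ℤ, ∑ v, c v * F v = c e * F e + c f * F f + c g * F g := by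
    intro F
    have h4 : ∑ v, c v * F v = ∑ v ∈ ({e, f, g} : Finset (Var m)), c v * F v := by
      symm
      apply Finset.sum_subset (subset_univ _)
      intro v _ hv
      have : c v = 0 := by
        by_contra hcv
        apply hv
        simp only [mem_insert, mem_singleton]
        exact hsupp v hcv
      rw [this, zero_mul]
    rw [h4, sum_insert, sum_insert, sum_singleton, add_assoc]
    · simp only [mem_singleton]; exact hfg
    · simp only [mem_insert, mem_singleton, not_or]; exact hne
  have hef : c e = c f := by
    have h4 := hc (src e)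
    rw [bd, hsum] at h4
    have t1 : dst e ≠ src e := fun h => src_ne_dst e e rfl h.symm
    have t2 : src f ≠ src e := fun h => src_ne_dst f f rfl (h.trans k1.symm)
    have t3 : src g ≠ src e := fun h => t1 (k2.symm.trans h)
    have t4 : dst g ≠ src e := fun h => t2 (k3.trans h)
    rw [if_pos rfl, if_neg t1, if_neg t2, if_pos k1, if_neg t3, if_neg t4] at h4
    linarith
  have heg : c e = c g := by
    have h4 := hc (dst e)
    rw [bd, hsum] at h4
    have t1 : src e ≠ dst e := src_ne_dst e e rfl
    have t2 : dst f ≠ dst e := fun h => t1 (k1.symm.trans h)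
    have t3 : src f ≠ dst e := fun h => hfe (honly f (Or.inr k1) (Or.inl h))
    have t4 : dst g ≠ dst e := fun h => t3 (k3.trans h)
    rw [if_neg t1, if_pos rfl, if_neg t3, if_neg t2, if_pos k2, if_neg t4] at h4
    linarith
  -- the triangle
  have p1 : f.1 + 1 = e.1 := congrArg Prod.fst k1
  have p2 : f.2.2 = e.2.1 := congrArg Prod.snd k1
  have p3 : g.1 = e.1 + 1 := congrArg Prod.fst k2
  have p4 : g.2.1 = e.2.2 := congrArg Prod.snd k2
  have p6 : f.2.1 = g.2.2 := congrArg Prod.snd k3
  have p5 : f.1 = e.1 + 2 := by
    rw [← p1]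
    generalize f.1 = s
    revert s
    decide
  have q1 : (e.1 + 1 : Fin 3) ≠ e.1 := by
    generalize e.1 = s
    revert s
    decide
  have q2 : (e.1 + 2 : Fin 3) ≠ e.1 := by
    generalize e.1 = s
    revert s
    decide
  have q3 : (e.1 + 2 : Fin 3) ≠ e.1 + 1 := by
    generalize e.1 = s
    revert s
    decide
  have q4 : (e.1 + 1 + 1 : Fin 3) = e.1 + 2 := by
    generalize e.1 = s
    revert s
    decide
  have q5 : (e.1 + 2 + 1 : Fin 3) = e.1 := by
    generalize e.1 = s
    revert s
    decide
  obtain ⟨T, hT⟩ : ∃ T : Fin 3 → Fin m, T = fun u => if u = e.1 then e.2.1 else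
    if u = e.1 + 1 then e.2.2 else f.2.1 := ⟨_, rfl⟩
  have T0 : T e.1 = e.2.1 := by simp [hT]
  have T1 : T (e.1 + 1) = e.2.2 := by simp [hT, q1]
  have T2 : T (e.1 + 2) = f.2.1 := by simp only [hT]; rw [if_neg q2, if_neg q3]
  refine ⟨T, c e, he, fun v => ?_⟩
  by_cases hv : v = e ∨ v = f ∨ v = g
  · rcases hv with rfl | rfl | rfl
    · rw [ind, if_pos ⟨T0.symm, T1.symm⟩, mul_one]
    · rw [ind, if_pos, mul_one, hef]
      rw [p5, q5, T0, T2]
      exact ⟨rfl, p2⟩
    · rw [ind, if_pos, mul_one, heg]
      rw [p3, q4, T1, T2]
      exact ⟨p4, p6.symm⟩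
  · have h4 : c v = 0 := by
      by_contra h
      exact hv (hsupp v h)
    rw [h4, ind, if_neg, mul_zero]
    rintro ⟨h5, h6⟩
    apply hv
    by_cases u1 : v.1 = e.1
    · left
      apply ext_edge
      · rw [u1, T0] at h5
        exact Prod.ext u1 h5
      · rw [u1, T1] at h6
        exact Prod.ext (by simp only [dst]; rw [u1]) h6
    · by_cases u2 : v.1 = e.1 + 1
      · right; right
        apply ext_edge
        · rw [u2, T1] at h5
          exact Prod.ext (by simp only [src]; rw [u2, p3]) (by simp only [src]; rw [h5, p4])
        · rw [u2, q4, T2] at h6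
          exact Prod.ext (by simp only [dst]; rw [u2, p3]) (by simp only [dst]; rw [h6, p6])
      · have u3 := third _ _ u1 u2
        right; left
        apply ext_edge
        · rw [u3, T2] at h5
          exact Prod.ext (by simp only [src]; rw [u3, p5]) h5
        · rw [u3, q5, T0] at h6
          exact Prod.ext (by simp only [dst]; rw [u3, p5]) (by simp only [dst]; rw [h6, p2])

end forms

end Pool.Agent.K1H36.TW
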