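import Pool.Agent.K1H36.TW.Core

set_option autoImplicit false

open Finset

namespace Pool.Agent.K1H36.TW

/-! ### Potentials which are not zeros of given linear forms -/

/-- A nonzero linear form has few zeros in a cube. -/
theorem few_zeros {P : Type} [Fintype P] [DecidableEq P] (μ : P → ℤ) (hμ : ∃ p, μ p ≠ 0) (N : ℕ) :
    N * (univ.filter fun z : P → Fin N => ∑ p, ((z p : ℕ) : ℤ) * μ p = 0).card ≤
      Fintype.card (P → Fin N) := by
  obtain ⟨p0, hp0⟩ := hμ
  have h1 : N * (univ.filter fun z : P → Fin N => ∑ p, ((z p : ℕ) : ℤ) * μ p = 0).card =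
      ((univ : Finset (Fin N)) ×ˢ
        (univ.filter fun z : P → Fin N => ∑ p, ((z p : ℕ) : ℤ) * μ p = 0)).card := by
    rw [card_product, card_univ, Fintype.card_fin]
  rw [h1, ← card_univ]
  apply Finset.card_le_card_of_injOn (fun q => Function.update q.2 p0 q.1)
  · intro q _
    exact mem_univ _
  · rintro ⟨t, z⟩ hq ⟨t', z'⟩ hq' h
    rw [Finset.mem_coe, mem_product, mem_filter] at hq hq'
    have hz := hq.2.2
    have hz' := hq'.2.2
    simp only at h hz hz'
    have ht : t = t' := by
      have := congrFun h p0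
      simpa using this
    have hoff : ∀ p, p ≠ p0 → z p = z' p := by
      intro p hp
      have := congrFun h p
      simpa [Function.update_of_ne hp] using this
    have h2 : ((z p0 : ℕ) : ℤ) * μ p0 = ((z' p0 : ℕ) : ℤ) * μ p0 := by
      rw [← Finset.add_sum_erase _ _ (mem_univ p0)] at hz hz'
      have h3 : ∑ p ∈ univ.erase p0, ((z p : ℕ) : ℤ) * μ p =
          ∑ p ∈ univ.erase p0, ((z' p : ℕ) : ℤ) * μ p := by
        refine Finset.sum_congr rfl fun p hp => ?_
        rw [hoff p (ne_of_mem_erase hp)]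
      linarith
    have h3 : z p0 = z' p0 := by
      have := mul_right_cancel₀ hp0 h2
      exact Fin.ext (by exact_mod_cast this)
    have h4 : z = z' := by
      funext p
      by_cases hp : p = p0
      · rw [hp, h3]
      · exact hoff p hp
    rw [ht, h4]

/-- A point which is not a zero of any of the nonzero forms. -/
theorem exists_point {P I : Type} [Fintype P] [DecidableEq P] [Fintype I] (μ : I → P → ℤ) (N : ℕ)
    (hN : Fintype.card I < N) :
    ∃ z : P → Fin N, ∀ i, (∃ p, μ i p ≠ 0) → ∑ p, ((z p : ℕ) : ℤ) * μ i p ≠ 0 := by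
  classical
  by_contra hcon
  push Not at hcon
  have hN0 : 0 < N := by omega
  have : Nonempty (Fin N) := ⟨⟨0, hN0⟩⟩
  have h1 : (univ : Finset (P → Fin N)) ⊆ (univ.filter fun i : I => ∃ p, μ i p ≠ 0).biUnion
      fun i => univ.filter fun z : P → Fin N => ∑ p, ((z p : ℕ) : ℤ) * μ i p = 0 := by
    intro z _
    obtain ⟨i, hi, hz⟩ := hcon z
    rw [mem_biUnion]
    exact ⟨i, mem_filter.2 ⟨mem_univ _, hi⟩, mem_filter.2 ⟨mem_univ _, hz⟩⟩
  have h2 := (card_le_card h1).trans card_biUnion_le
  have h3 : N * Fintype.card (P → Fin N) ≤ Fintype.card I * Fintype.card (P → Fin N) := by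
    calc N * Fintype.card (P → Fin N) ≤ N * ∑ i ∈ univ.filter (fun i : I => ∃ p, μ i p ≠ 0),
          (univ.filter fun z : P → Fin N => ∑ p, ((z p : ℕ) : ℤ) * μ i p = 0).card := by
            rw [card_univ] at h2
            exact Nat.mul_le_mul_left _ h2
      _ = ∑ i ∈ univ.filter (fun i : I => ∃ p, μ i p ≠ 0),
          N * (univ.filter fun z : P → Fin N => ∑ p, ((z p : ℕ) : ℤ) * μ i p = 0).card :=
            Finset.mul_sum _ _ _
      _ ≤ ∑ _i ∈ univ.filter (fun i : I => ∃ p, μ i p ≠ 0), Fintype.card (P → Fin N) :=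
            Finset.sum_le_sum fun i hi => few_zeros (μ i) (mem_filter.1 hi).2 N
      _ = (univ.filter (fun i : I => ∃ p, μ i p ≠ 0)).card * Fintype.card (P → Fin N) := by
            rw [Finset.sum_const, smul_eq_mul]
      _ ≤ _ := Nat.mul_le_mul_right _ (by
            rw [← card_univ]
            exact card_le_card (filter_subset _ _))
  have h4 : 0 < Fintype.card (P → Fin N) := Fintype.card_pos
  have := Nat.le_of_mul_le_mul_right h3 h4
  omega

/-! ### Sparse forms -/

section sparse

variable {V : Type} [Fintype V] [DecidableEq V]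

/-- The form with the given code. -/
def decode (S B : ℕ) (f : Fin S → Option (V × Fin (2 * B + 1))) (v : V) : ℤ :=
  ∑ i, match f i with
    | none => 0
    | some (u, c) => if u = v then ((c : ℕ) : ℤ) - B else 0

theorem exists_code {S B : ℕ} (c : V → ℤ) (hS : (univ.filter fun v => c v ≠ 0).card ≤ S)
    (hB : ∀ v, |c v| ≤ B) : ∃ f : Fin S → Option (V × Fin (2 * B + 1)), decode S B f = c := by
  obtain ⟨s, hs⟩ : ∃ s, s = univ.filter fun v => c v ≠ 0 := ⟨_, rfl⟩
  rw [← hs] at hS
  have hlt : ∀ v, (c v + B).toNat < 2 * B + 1 := by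
    intro v
    have := abs_le.1 (hB v)
    omega
  refine ⟨fun i => if h : i.1 < s.card then
    some ((s.equivFin.symm ⟨i.1, h⟩ : V), ⟨(c (s.equivFin.symm ⟨i.1, h⟩ : V) + B).toNat, hlt _⟩)
      else none, ?_⟩
  funext v
  by_cases hv : v ∈ s
  · rw [decode, Finset.sum_eq_single
      (⟨(s.equivFin ⟨v, hv⟩).1, lt_of_lt_of_le (s.equivFin ⟨v, hv⟩).2 hS⟩ : Fin S)]
    · rw [dif_pos (s.equivFin ⟨v, hv⟩).2]
      have h1 : (s.equivFin.symm ⟨(s.equivFin ⟨v, hv⟩).1, (s.equivFin ⟨v, hv⟩).2⟩ : V) = v := by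
        simp
      simp only [h1, if_true]
      have := abs_le.1 (hB v)
      omega
    · intro i _ hi
      by_cases h : i.1 < s.card
      · simp only [dif_pos h]
        rw [if_neg]
        intro h2
        apply hi
        have h3 : s.equivFin ⟨v, hv⟩ = ⟨i.1, h⟩ := by
          rw [← Equiv.eq_symm_apply]
          exact Subtype.ext h2.symm
        exact Fin.ext (by rw [h3])
      · simp only [dif_neg h]
    · intro h
      exact absurd (mem_univ _) h
  · have h0 : c v = 0 := by
      by_contra h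
      exact hv (by rw [hs, mem_filter]; exact ⟨mem_univ _, h⟩)
    rw [h0, decode]
    apply Finset.sum_eq_zero
    intro i _
    by_cases h : i.1 < s.card
    · simp only [dif_pos h]
      rw [if_neg]
      intro h2
      exact hv (h2 ▸ (s.equivFin.symm ⟨i.1, h⟩).2)
    · simp only [dif_neg h]

end sparse

/-- Potentials for which all sparse forms with a boundary are nonzero. -/
theorem exists_potential (m S B N : ℕ) (hN : (3 * m ^ 2 * (2 * B + 1) + 1) ^ S < N) :
    ∃ z : Fin 3 × Fin m → ℤ, (∀ p, 0 ≤ z p ∧ z p < N) ∧ ∀ c : Var m → ℤ,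
      (univ.filter fun v => c v ≠ 0).card ≤ S → (∀ v, |c v| ≤ B) →
        ∑ v, c v * diff z v = 0 → ∀ p, bd c p = 0 := by
  classical
  have hcard : Fintype.card (Fin S → Option (Var m × Fin (2 * B + 1))) =
      (3 * m ^ 2 * (2 * B + 1) + 1) ^ S := by
    simp only [Fintype.card_fun, Fintype.card_option, Fintype.card_prod, Fintype.card_fin]
    congr 1
    ring
  obtain ⟨z, hz⟩ := exists_point (P := Fin 3 × Fin m)
    (fun (f : Fin S → Option (Var m × Fin (2 * B + 1))) p => bd (decode S B f) p) N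
    (by rw [hcard]; exact hN)
  refine ⟨fun p => ((z p : ℕ) : ℤ), fun p => ⟨by positivity, ?_⟩, ?_⟩
  · show ((z p : ℕ) : ℤ) < N
    exact_mod_cast (z p).isLt
  intro c hS hB h0 p
  by_contra hp
  obtain ⟨f, hf⟩ := exists_code c hS hB
  have h1 := hz f ⟨p, by rw [hf]; exact hp⟩
  apply h1
  rw [hf, ← sum_diff c (fun p => ((z p : ℕ) : ℤ))]
  exact h0

end Pool.Agent.K1H36.TW
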