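import Mathlib

/-!
# Exact Triangle: tests in at most three weights

Definitions.
-/

set_option autoImplicit false

open Finset

namespace Pool.Agent.K1H36.TW

/-- `(e, w)` is an instance of Exact Triangle on `n` vertices: `e` are the edge flags and `w` the
weights. -/
structure IsInstance (n : ℕ) (e : Fin n → Fin n → Bool) (w : Fin n → Fin n → ℤ) : Prop where
  flags_symm : ∀ i j, e i j = e j i
  loopless : ∀ i, e i i = false
  weights_symm : ∀ i j, w i j = w j i
  bound : ∀ i j, |w i j| ≤ (n : ℤ) ^ 300

/-- The instance is a yes-instance. -/
def HasZeroTriangle {n : ℕ} (e : Fin n → Fin n → Bool) (w : Fin n → Fin n → ℤ) : Prop :=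
  ∃ i j k, i ≠ j ∧ j ≠ k ∧ i ≠ k ∧ e i j = true ∧ e j k = true ∧ e i k = true ∧
    w i j + w j k + w i k = 0

/-- A test: an affine form in the weights with integral coefficients (its sign is learnt). -/
structure Test (n : ℕ) where
  /-- the coefficients of the weights -/
  coef : Fin n → Fin n → ℤ
  /-- the constant term -/
  const : ℤ

namespace Test

variable {n : ℕ}

/-- The linear part. -/
def lin (t : Test n) (w : Fin n → Fin n → ℤ) : ℤ := ∑ i, ∑ j, t.coef i j * w i j

/-- The value of the form. -/
def value (t : Test n) (w : Fin n → Fin n → ℤ) : ℤ := t.lin w + t.const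

/-- The cells of the matrix of the weights which are used. -/
def cells (t : Test n) : Finset (Fin n × Fin n) := univ.filter fun z => t.coef z.1 z.2 ≠ 0

/-- The sum of the absolute values of the coefficients. -/
def norm (t : Test n) : ℤ := ∑ i, ∑ j, |t.coef i j|

end Test

/-- An adaptive algorithm for given flags: at a node the sign of a form is learnt. -/
inductive Tree (n : ℕ) : Type
  | leaf (ans : Bool) : Tree n
  | node (t : Test n) (next : SignType → Tree n) : Tree n

namespace Tree

variable {n : ℕ}

/-- The answer. -/
noncomputable def answer : Tree n → (Fin n → Fin n → ℤ) → Bool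
  | leaf a, _ => a
  | node t next, w => (next (SignType.sign (t.value w))).answer w

/-- The tests which are made. -/
noncomputable def path : Tree n → (Fin n → Fin n → ℤ) → List (Test n)
  | leaf _, _ => []
  | node t next, w => t :: (next (SignType.sign (t.value w))).path w

/-- All the tests in the tree have the property `P`. -/
def All (P : Test n → Prop) : Tree n → Prop
  | leaf _ => True
  | node t next => P t ∧ ∀ s, (next s).All P

end Tree

/-- An algorithm: the tests may depend on the edge flags, on the weights modulo `2 ^ a` and on the
integral parts of the weights divided by `2 ^ b`. -/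
def Algorithm (n : ℕ) : Type :=
  (Fin n → Fin n → Bool) → (Fin n → Fin n → ℤ) → (Fin n → Fin n → ℤ) → Tree n

namespace Algorithm

variable {n : ℕ}

/-- The tree that is used for an instance. -/
def tree (A : Algorithm n) (a b : ℕ) (e : Fin n → Fin n → Bool) (w : Fin n → Fin n → ℤ) : Tree n :=
  A e (fun i j => w i j % 2 ^ a) (fun i j => w i j / 2 ^ b)

/-- The algorithm answers yes. -/
def Accepts (A : Algorithm n) (a b : ℕ) (e : Fin n → Fin n → Bool) (w : Fin n → Fin n → ℤ) : Prop :=
  (A.tree a b e w).answer w = true

/-- All tests of the algorithm have the property `P`. -/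
def All (P : Test n → Prop) (A : Algorithm n) : Prop := ∀ e lo hi, (A e lo hi).All P

end Algorithm

/-! ### The complete tripartite graph -/

/-- The edges of the complete tripartite graph: `(s, i, j)` joins the vertex number `i` of the part
`s` to the vertex number `j` of the part `s + 1` (modulo three). -/
abbrev Var (m : ℕ) := Fin 3 × Fin m × Fin m

/-- The part of a vertex. -/
def part {n : ℕ} (m : ℕ) (a : Fin n) : ℕ := a.1 / m

/-- The number of a vertex in its part. -/
def idx {n m : ℕ} [NeZero m] (a : Fin n) : Fin m :=
  ⟨a.1 % m, Nat.mod_lt _ (Nat.pos_of_ne_zero (NeZero.ne m))⟩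

/-- The edge at a cell. -/
def lab {n m : ℕ} [NeZero m] (a b : Fin n) : Option (Var m) :=
  if part m a = 0 ∧ part m b = 1 then some (0, idx a, idx b)
  else if part m a = 1 ∧ part m b = 0 then some (0, idx b, idx a)
  else if part m a = 1 ∧ part m b = 2 then some (1, idx a, idx b)
  else if part m a = 2 ∧ part m b = 1 then some (1, idx b, idx a)
  else if part m a = 2 ∧ part m b = 0 then some (2, idx a, idx b)
  else if part m a = 0 ∧ part m b = 2 then some (2, idx b, idx a)
  else none

/-- The weights of the edges as a matrix; the other cells get `0`. -/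
def wt {n m : ℕ} [NeZero m] (x : Var m → ℤ) (a b : Fin n) : ℤ :=
  match (lab a b : Option (Var m)) with
  | none => 0
  | some v => x v

/-- The edge flags. -/
def flg {n : ℕ} (m : ℕ) [NeZero m] (a b : Fin n) : Bool := (lab a b : Option (Var m)).isSome

/-- Differences of potentials: the sum over every triangle is zero. -/
def diff {m : ℕ} (z : Fin 3 × Fin m → ℤ) (v : Var m) : ℤ := z (v.1, v.2.1) - z (v.1 + 1, v.2.2)

/-- The linear part of the test vanishes for all differences of potentials on the tripartite graph,
but not for all weights on this graph. -/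
def Charged {n : ℕ} (m : ℕ) [NeZero m] (t : Test n) : Prop :=
  (∀ z : Fin 3 × Fin m → ℤ, t.lin (wt (diff z)) = 0) ∧ ∃ x : Var m → ℤ, t.lin (wt x) ≠ 0

/-- The allowed tests: at most `S` cells, the sum of the absolute values of the coefficients and the
absolute value of the constant are at most `B`, and charged tests have at most three cells. -/
def Allowed {n : ℕ} (m S B : ℕ) [NeZero m] (t : Test n) : Prop :=
  t.cells.card ≤ S ∧ t.norm ≤ B ∧ |t.const| ≤ B ∧ (Charged m t → t.cells.card ≤ 3)

open Classical in
/-- The number of charged tests which are made. -/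
noncomputable def cost {n : ℕ} (m : ℕ) [NeZero m] (T : Tree n) (w : Fin n → Fin n → ℤ) : ℕ :=
  ((T.path w).filter fun t => decide (Charged m t)).length

end Pool.Agent.K1H36.TW
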