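import Pool.Agent.K1H36.TW.Main

set_option autoImplicit false

open Finset

namespace Pool.Agent.K1H36.TW

open Classical in
/-- The conclusion: there is an instance without zero triangle for which (1) every accepting
computation of every correct nondeterministic algorithm for the no-instances and (2) the average
computation of every randomized algorithm with error probability at most `ε` makes many charged
tests. -/
def Cubic (n m S B a b : ℕ) [NeZero m] : Prop :=
  ∃ (e : Fin n → Fin n → Bool) (w : Fin n → Fin n → ℤ), IsInstance n e w ∧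
    ¬ HasZeroTriangle e w ∧
    (∀ (Γ : Type) (A : Γ → Algorithm n), (∀ γ, (A γ).All (Allowed m S B)) →
      (∀ e w, IsInstance n e w → ((∃ γ, (A γ).Accepts a b e w) ↔ ¬ HasZeroTriangle e w)) →
      ∀ γ, (A γ).Accepts a b e w → m ^ 3 ≤ cost m ((A γ).tree a b e w) w) ∧
    ∀ (Ω : Type) [Fintype Ω] (p : Ω → ℝ), (∀ ω, 0 ≤ p ω) → ∑ ω, p ω = 1 →
      ∀ (A : Ω → Algorithm n) (ε : ℝ), (∀ ω, (A ω).All (Allowed m S B)) →
        (∀ e w, IsInstance n e w →
          ∑ ω with ¬ ((A ω).Accepts a b e w ↔ HasZeroTriangle e w), p ω ≤ ε) →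
        (1 - 2 * ε) * (m : ℝ) ^ 3 ≤ ∑ ω, p ω * (cost m ((A ω).tree a b e w) w : ℝ)

section lower

variable {n m : ℕ} [NeZero m]

theorem diff_tri (z : Fin 3 × Fin m → ℤ) (T : Fin 3 → Fin m) :
    ∑ s, diff z ((s, T s, T (s + 1)) : Var m) = 0 := by
  rw [Fin.sum_univ_three]
  simp only [diff]
  have h2 : (2 : Fin 3) + 1 = 0 := by decide
  have h1 : (1 : Fin 3) + 1 = 2 := by decide
  have h0 : (0 : Fin 3) + 1 = 1 := by decide
  rw [h0, h1, h2]
  ring

theorem sum_x1 (b k : ℕ) (z : Fin 3 × Fin m → ℤ) (T : Fin 3 → Fin m) :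
    ∑ s, x1 b k z (s, T s, T (s + 1)) = 3 * 2 ^ k := by
  simp only [x1]
  rw [Finset.sum_add_distrib, ← Finset.mul_sum, diff_tri]
  simp

theorem sum_xT (b k : ℕ) (z : Fin 3 × Fin m → ℤ) (T : Fin 3 → Fin m) :
    ∑ s, xT b k z T (s, T s, T (s + 1)) = 0 := by
  simp only [xT]
  rw [Finset.sum_add_distrib, ← Finset.mul_sum, diff_tri]
  simp [ind]

/-- The low and the high bits of the instances. -/
theorem low_high {a b k : ℕ} (hak : a ≤ k) (hkb : k < b) (z : Fin 3 × Fin m → ℤ) (F : Var m → ℤ)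
    (hF : ∀ v, F v = 0 ∨ F v = 1) (i j : Fin n) :
    wt (fun v => 2 ^ b * diff z v + 2 ^ k * F v) i j % 2 ^ a = 0 ∧
      wt (fun v => 2 ^ b * diff z v + 2 ^ k * F v) i j / 2 ^ b = wt (diff z) i j := by
  rcases h : (lab i j : Option (Var m)) with _ | v
  · rw [wt_of_none h, wt_of_none h]
    simp
  · rw [wt_of_lab h, wt_of_lab h]
    constructor
    · apply Int.emod_eq_zero_of_dvd
      apply dvd_add
      · exact Dvd.dvd.mul_right (pow_dvd_pow _ (by omega)) _
      · exact Dvd.dvd.mul_right (pow_dvd_pow _ hak) _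
    · have h1 : (0 : ℤ) < 2 ^ b := by positivity
      rw [add_comm, Int.add_mul_ediv_left _ _ h1.ne', Int.ediv_eq_zero_of_lt, zero_add]
      · rcases hF v with h | h <;> rw [h]
        · simp
        · positivity
      · have h2 : (2 : ℤ) ^ k < 2 ^ b := pow_lt_pow_right₀ (by norm_num) hkb
        rcases hF v with h | h <;> rw [h]
        · simpa using h1
        · simpa using h2

theorem x1_eq (b k : ℕ) (z : Fin 3 × Fin m → ℤ) :
    x1 b k z = fun v => 2 ^ b * diff z v + 2 ^ k * (fun _ => (1 : ℤ)) v := by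
  funext v
  simp [x1]

theorem xT_eq (b k : ℕ) (z : Fin 3 × Fin m → ℤ) (T : Fin 3 → Fin m) :
    xT b k z T = fun v => 2 ^ b * diff z v + 2 ^ k * (fun v => 1 - ind T v) v := rfl

theorem tree_eq {a b k : ℕ} (hak : a ≤ k) (hkb : k < b) (z : Fin 3 × Fin m → ℤ)
    (T : Fin 3 → Fin m) (A : Algorithm n) (e : Fin n → Fin n → Bool) :
    A.tree a b e (wt (x1 b k z)) = A.tree a b e (wt (xT b k z T)) := by
  have h1 : ∀ v : Var m, (fun _ => (1 : ℤ)) v = 0 ∨ (fun _ => (1 : ℤ)) v = 1 :=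
    fun _ => Or.inr rfl
  have h2 : ∀ v : Var m, (fun v => 1 - ind T v) v = 0 ∨ (fun v => 1 - ind T v) v = 1 := by
    intro v
    rcases ind_le T v with h | h
    · right; simp [h]
    · left; simp [h]
  unfold Algorithm.tree
  congr 1
  · funext i j
    rw [x1_eq, xT_eq, (low_high hak hkb z _ h1 i j).1, (low_high hak hkb z _ h2 i j).1]
  · funext i j
    rw [x1_eq, xT_eq, (low_high hak hkb z _ h1 i j).2, (low_high hak hkb z _ h2 i j).2]

theorem size_bound {b k N : ℕ} (z : Fin 3 × Fin m → ℤ) (hz : ∀ p, 0 ≤ z p ∧ z p < (N : ℤ) + 1)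
    (hk : k < b) (hn : 2 ^ b * (N + 1) ≤ n ^ 300) (F : Var m → ℤ) (hF : ∀ v, F v = 0 ∨ F v = 1)
    (v : Var m) : |2 ^ b * diff z v + 2 ^ k * F v| ≤ (n : ℤ) ^ 300 := by
  have h1 : |diff z v| ≤ N := by
    rw [abs_le]
    unfold diff
    have h2 := hz (v.1, v.2.1)
    have h3 := hz (v.1 + 1, v.2.2)
    constructor <;> omega
  have h2 : (2 : ℤ) ^ k < 2 ^ b := pow_lt_pow_right₀ (by norm_num) hk
  have h3 : (0 : ℤ) < 2 ^ b := by positivity
  have h4 : (2 : ℤ) ^ b * (N + 1) ≤ (n : ℤ) ^ 300 := by exact_mod_cast hn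
  have h5 : |(2 : ℤ) ^ k * F v| ≤ 2 ^ k := by
    rcases hF v with h | h <;> rw [h] <;> simp
  calc |2 ^ b * diff z v + 2 ^ k * F v| ≤ |2 ^ b * diff z v| + |2 ^ k * F v| := abs_add_le _ _
    _ ≤ 2 ^ b * N + 2 ^ k := by
        rw [abs_mul, abs_of_pos h3]
        have := mul_le_mul_of_nonneg_left h1 h3.le
        linarith
    _ ≤ 2 ^ b * (N + 1) := by linarith
    _ ≤ _ := h4

/-- **The lower bound.** -/
theorem lower {S B a b : ℕ} (hm : 3 * m ≤ n) (hab : 4 * (B + 1) ^ 2 * 2 ^ a ≤ 2 ^ b)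
    (hb : 2 ^ b * ((3 * m ^ 2 * (2 * B + 1) + 1) ^ S + 1) ≤ n ^ 300) : Cubic n m S B a b := by
  classical
  obtain ⟨z, hz1, hz2⟩ := exists_potential m S B ((3 * m ^ 2 * (2 * B + 1) + 1) ^ S + 1)
    (Nat.lt_succ_self _)
  obtain ⟨N, hN⟩ : ∃ N, N = (3 * m ^ 2 * (2 * B + 1) + 1) ^ S := ⟨_, rfl⟩
  rw [← hN] at hz1 hb
  push_cast at hz1
  -- the choice of `k`
  obtain ⟨c, hc⟩ : ∃ c, c = Nat.clog 2 (B + 1) := ⟨_, rfl⟩
  obtain ⟨k, hk⟩ : ∃ k, k = a + c := ⟨_, rfl⟩
  have c1 : B + 1 ≤ 2 ^ c := by rw [hc]; exact Nat.le_pow_clog (by norm_num) _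
  have c2 : 2 ^ c ≤ 2 * (B + 1) := by
    rcases Nat.eq_zero_or_pos c with h | h
    · rw [h]; omega
    · have h1 : 2 ^ (c - 1) < B + 1 := by
        rw [hc]
        apply Nat.pow_pred_clog_lt_self (by norm_num)
        by_contra hcon
        have : Nat.clog 2 (B + 1) = 0 := Nat.clog_of_right_le_one (by omega) _
        omega
      have h2 : 2 ^ c = 2 * 2 ^ (c - 1) := by
        rw [← pow_succ']
        congr 1
        omega
      omega
  have hpa : 1 ≤ 2 ^ a := Nat.one_le_two_pow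
  have k0 : 2 ^ k = 2 ^ a * 2 ^ c := by rw [hk, pow_add]
  have k1 : B < 2 ^ k := by
    rw [k0]
    nlinarith
  have k2 : 2 ^ k ≤ 2 * (B + 1) * 2 ^ a := by
    rw [k0]
    calc 2 ^ a * 2 ^ c ≤ 2 ^ a * (2 * (B + 1)) := Nat.mul_le_mul_left _ c2
      _ = _ := by ring
  have k3 : B * (2 ^ k + 1) < 2 ^ b := by
    have h1 : B * (2 ^ k + 1) ≤ B * (2 * (2 * (B + 1) * 2 ^ a)) := by
      apply Nat.mul_le_mul_left
      have : 1 ≤ 2 ^ k := Nat.one_le_two_pow
      omega
    refine lt_of_le_of_lt h1 (lt_of_lt_of_le ?_ hab)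
    have h2 : 4 * (B + 1) ^ 2 * 2 ^ a = B * (2 * (2 * (B + 1) * 2 ^ a)) + 4 * (B + 1) * 2 ^ a := by
      ring
    rw [h2]
    have : 0 < 4 * (B + 1) * 2 ^ a := by positivity
    omega
  have k4 : 2 ^ k < 2 ^ b := by
    refine lt_of_le_of_lt k2 (lt_of_lt_of_le ?_ hab)
    nlinarith [sq_nonneg B]
  have k5 : k < b := (Nat.pow_lt_pow_iff_right (by norm_num)).1 k4
  have k6 : a ≤ k := by omega
  have F1 : ∀ v : Var m, (fun _ => (1 : ℤ)) v = 0 ∨ (fun _ => (1 : ℤ)) v = 1 :=
    fun _ => Or.inr rfl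
  have F2 : ∀ (T : Fin 3 → Fin m) (v : Var m),
      (fun v => 1 - ind T v) v = 0 ∨ (fun v => 1 - ind T v) v = 1 := by
    intro T v
    rcases ind_le T v with h | h
    · right; simp [h]
    · left; simp [h]
  -- the instances
  have I1 : IsInstance n (flg m) (wt (x1 b k z)) := by
    rw [x1_eq]
    exact isInstance_wt _ (size_bound z hz1 k5 hb _ F1)
  have IT : ∀ T, IsInstance n (flg m) (wt (xT b k z T)) := by
    intro T
    rw [xT_eq]
    exact isInstance_wt _ (size_bound z hz1 k5 hb _ (F2 T))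
  have Z1 : ¬ HasZeroTriangle (flg (n := n) m) (wt (x1 b k z)) := by
    intro h
    obtain ⟨T, hT⟩ := exists_of_zero _ h
    rw [sum_x1] at hT
    have : (0 : ℤ) < 3 * 2 ^ k := by positivity
    omega
  have ZT : ∀ T, HasZeroTriangle (flg (n := n) m) (wt (xT b k z T)) := fun T =>
    zero_of_exists hm _ T (sum_xT b k z T)
  have hcardT : Fintype.card (Fin 3 → Fin m) = m ^ 3 := by simp
  refine ⟨flg m, wt (x1 b k z), I1, Z1, ?_, ?_⟩
  · intro Γ A hA hcor γ hγ
    have h1 := cost_bound k1 k3 hz2 ((A γ).tree a b (flg m) (wt (x1 b k z))) (hA γ _ _ _)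
    have h2 : (univ.filter fun T : Fin 3 → Fin m =>
        ((A γ).tree a b (flg m) (wt (x1 b k z))).answer (wt (x1 b k z)) ≠
          ((A γ).tree a b (flg m) (wt (x1 b k z))).answer (wt (xT b k z T))) = univ := by
      apply Finset.filter_true_of_mem
      intro T _ heq
      have h3 : (A γ).Accepts a b (flg m) (wt (xT b k z T)) := by
        unfold Algorithm.Accepts
        rw [← tree_eq k6 k5 z T, ← heq]
        exact hγ
      exact (hcor _ _ (IT T)).1 ⟨γ, h3⟩ (ZT T)
    rw [h2, card_univ, hcardT] at h1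
    exact h1
  · intro Ω _ p hp0 hp1 A ε hA herr
    obtain ⟨τ, hτ⟩ : ∃ τ : Ω → Tree n, τ = fun ω => (A ω).tree a b (flg m) (wt (x1 b k z)) :=
      ⟨_, rfl⟩
    have h1 : ∀ T : Fin 3 → Fin m, 1 - 2 * ε ≤ ∑ ω with (τ ω).answer (wt (x1 b k z)) ≠
        (τ ω).answer (wt (xT b k z T)), p ω := by
      intro T
      have e1 := herr _ _ I1
      have e2 := herr _ _ (IT T)
      obtain ⟨D, hD⟩ : ∃ D : Finset Ω, D = univ.filter fun ω => (τ ω).answer (wt (x1 b k z)) ≠
          (τ ω).answer (wt (xT b k z T)) := ⟨_, rfl⟩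
      obtain ⟨E1, hE1⟩ : ∃ E1 : Finset Ω, E1 = univ.filter fun ω =>
          ¬ ((A ω).Accepts a b (flg (n := n) m) (wt (x1 b k z)) ↔
            HasZeroTriangle (flg (n := n) m) (wt (x1 b k z))) := ⟨_, rfl⟩
      obtain ⟨E2, hE2⟩ : ∃ E2 : Finset Ω, E2 = univ.filter fun ω =>
          ¬ ((A ω).Accepts a b (flg (n := n) m) (wt (xT b k z T)) ↔
            HasZeroTriangle (flg (n := n) m) (wt (xT b k z T))) := ⟨_, rfl⟩
      have h2 : (univ : Finset Ω) ⊆ (D ∪ E1) ∪ E2 := by
        intro ω _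
        rw [hD, hE1, hE2]
        simp only [mem_union, mem_filter, mem_univ, true_and]
        by_contra hcon
        push Not at hcon
        obtain ⟨⟨g1, g2⟩, g3⟩ := hcon
        have g4 : (A ω).Accepts a b (flg m) (wt (xT b k z T)) := g3.2 (ZT T)
        have g5 : ¬ (A ω).Accepts a b (flg m) (wt (x1 b k z)) := fun h => Z1 (g2.1 h)
        apply g5
        unfold Algorithm.Accepts at g4 ⊢
        rw [← tree_eq k6 k5 z T] at g4
        rw [hτ] at g1
        rw [g1]
        exact g4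
      have h3 := Finset.sum_le_sum_of_subset_of_nonneg h2 (f := p) (fun ω _ _ => hp0 ω)
      rw [hp1] at h3
      have h4 : ∀ s t : Finset Ω, ∑ ω ∈ s ∪ t, p ω ≤ ∑ ω ∈ s, p ω + ∑ ω ∈ t, p ω := by
        intro s t
        rw [← Finset.sum_union_inter]
        have : 0 ≤ ∑ ω ∈ s ∩ t, p ω := Finset.sum_nonneg fun ω _ => hp0 ω
        linarith
      have h5 := h4 (D ∪ E1) E2
      have h6 := h4 D E1
      rw [← hE1] at e1
      rw [← hE2] at e2
      rw [← hD]
      linarith
    calc (1 - 2 * ε) * (m : ℝ) ^ 3 = ∑ _T : Fin 3 → Fin m, (1 - 2 * ε) := by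
          rw [Finset.sum_const, card_univ, hcardT, nsmul_eq_mul]
          push_cast
          ring
      _ ≤ ∑ T : Fin 3 → Fin m, ∑ ω with (τ ω).answer (wt (x1 b k z)) ≠
          (τ ω).answer (wt (xT b k z T)), p ω := Finset.sum_le_sum fun T _ => h1 T
      _ = ∑ ω, p ω * ((univ.filter fun T : Fin 3 → Fin m => (τ ω).answer (wt (x1 b k z)) ≠
          (τ ω).answer (wt (xT b k z T))).card : ℝ) := by
          simp only [Finset.sum_filter]
          rw [Finset.sum_comm]
          refine Finset.sum_congr rfl fun ω _ => ?_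
          rw [← Finset.sum_filter, Finset.sum_const, nsmul_eq_mul]
          ring
      _ ≤ _ := by
          refine Finset.sum_le_sum fun ω _ => mul_le_mul_of_nonneg_left ?_ (hp0 ω)
          have h7 := cost_bound k1 k3 hz2 (τ ω) (by rw [hτ]; exact hA ω _ _ _)
          rw [hτ] at h7
          rw [hτ]
          exact_mod_cast h7

/-- Concrete parameters. -/
theorem lower_concrete (hm : 3 * m ≤ n) {S B a b : ℕ} (hS : S ≤ 10) (hB : B ≤ n ^ 10)
    (hab : n ^ 24 * 2 ^ a ≤ 2 ^ b) (hb : 2 ^ b ≤ n ^ 150) : Cubic n m S B a b := by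
  have hm1 : 1 ≤ m := Nat.one_le_iff_ne_zero.2 (NeZero.ne m)
  have hn : 3 ≤ n := by omega
  have hn10 : 1 ≤ n ^ 10 := Nat.one_le_pow _ _ (by omega)
  apply lower hm
  · refine le_trans ?_ hab
    apply Nat.mul_le_mul_right
    calc 4 * (B + 1) ^ 2 ≤ 4 * (2 * n ^ 10) ^ 2 := by
          apply Nat.mul_le_mul_left
          apply Nat.pow_le_pow_left
          omega
      _ = 16 * n ^ 20 := by ring
      _ ≤ n ^ 4 * n ^ 20 := by
          apply Nat.mul_le_mul_right
          calc 16 ≤ 3 ^ 4 := by norm_num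
            _ ≤ n ^ 4 := Nat.pow_le_pow_left hn 4
      _ = n ^ 24 := by ring
  · have h1 : 3 * m ^ 2 * (2 * B + 1) + 1 ≤ n ^ 14 := by
      have h2 : 3 * m ^ 2 ≤ n ^ 2 := by nlinarith
      have h3 : 2 * B + 1 ≤ n ^ 11 := by
        calc 2 * B + 1 ≤ 3 * n ^ 10 := by omega
          _ ≤ n * n ^ 10 := Nat.mul_le_mul_right _ hn
          _ = n ^ 11 := by ring
      calc 3 * m ^ 2 * (2 * B + 1) + 1 ≤ n ^ 2 * n ^ 11 + 1 :=
            Nat.add_le_add_right (Nat.mul_le_mul h2 h3) 1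
        _ = n ^ 13 + 1 := by ring
        _ ≤ n ^ 14 := by
            have h4 : 1 ≤ n ^ 13 := Nat.one_le_pow _ _ (by omega)
            calc n ^ 13 + 1 ≤ 3 * n ^ 13 := by omega
              _ ≤ n * n ^ 13 := Nat.mul_le_mul_right _ hn
              _ = n ^ 14 := by ring
    have h5 : (3 * m ^ 2 * (2 * B + 1) + 1) ^ S ≤ n ^ 140 := by
      calc (3 * m ^ 2 * (2 * B + 1) + 1) ^ S ≤ (n ^ 14) ^ S := Nat.pow_le_pow_left h1 S
        _ ≤ (n ^ 14) ^ 10 := Nat.pow_le_pow_right (Nat.one_le_pow _ _ (by omega)) hS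
        _ = n ^ 140 := by ring
    have h6 : 1 ≤ n ^ 140 := Nat.one_le_pow _ _ (by omega)
    calc 2 ^ b * ((3 * m ^ 2 * (2 * B + 1) + 1) ^ S + 1) ≤ n ^ 150 * (n ^ 140 + 1) :=
          Nat.mul_le_mul hb (Nat.add_le_add_right h5 1)
      _ ≤ n ^ 150 * (n * n ^ 140) := by
          apply Nat.mul_le_mul_left
          nlinarith
      _ = n ^ 291 := by ring
      _ ≤ n ^ 300 := Nat.pow_le_pow_right (by omega) (by norm_num)

end lower

/-! ### Exhaustive search -/

section upper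

variable {n : ℕ}

/-- The test of a triangle. -/
def tst (q : Fin n × Fin n × Fin n) : Test n where
  coef := fun i j => if (i, j) = (q.1, q.2.1) ∨ (i, j) = (q.2.1, q.2.2) ∨ (i, j) = (q.1, q.2.2)
    then 1 else 0
  const := 0

theorem tst_value (q : Fin n × Fin n × Fin n) (h1 : q.1 ≠ q.2.1) (h2 : q.2.1 ≠ q.2.2)
    (w : Fin n → Fin n → ℤ) : (tst q).value w = w q.1 q.2.1 + w q.2.1 q.2.2 + w q.1 q.2.2 := by
  obtain ⟨i, j, k⟩ := q
  simp only at h1 h2
  have h3 : (tst (i, j, k)).value w = ∑ z : Fin n × Fin n,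
      (if z = (i, j) ∨ z = (j, k) ∨ z = (i, k) then w z.1 z.2 else 0) := by
    rw [Test.value, Test.lin, Fintype.sum_prod_type]
    simp only [tst, add_zero]
    refine Finset.sum_congr rfl fun x _ => Finset.sum_congr rfl fun y _ => ?_
    split_ifs <;> simp
  rw [h3, ← Finset.sum_filter]
  have h4 : (univ.filter fun z : Fin n × Fin n => z = (i, j) ∨ z = (j, k) ∨ z = (i, k)) =
      {(i, j), (j, k), (i, k)} := by
    ext z
    simp
  rw [h4, Finset.sum_insert, Finset.sum_insert, Finset.sum_singleton]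
  · ring
  · simp only [mem_singleton, Prod.mk.injEq, not_and]
    intro h
    exact absurd h.symm h1
  · simp only [mem_insert, mem_singleton, Prod.mk.injEq, not_or, not_and]
    exact ⟨fun h => absurd h h1, fun _ => h2⟩

theorem tst_cells (q : Fin n × Fin n × Fin n) : (tst q).cells.card ≤ 3 := by
  have h : (tst q).cells ⊆ {(q.1, q.2.1), (q.2.1, q.2.2), (q.1, q.2.2)} := by
    intro z hz
    have := (mem_filter.1 hz).2
    simp only [tst] at this
    simp only [mem_insert, mem_singleton]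
    by_contra hcon
    apply this
    rw [if_neg hcon]
  exact (card_le_card h).trans card_le_three

/-- Make the tests of a list until a form is zero. -/
noncomputable def ofList : List (Test n) → Tree n
  | [] => .leaf false
  | t :: l => .node t fun s => if s = 0 then .leaf true else ofList l

theorem ofList_spec (l : List (Test n)) (w : Fin n → Fin n → ℤ) :
    ((ofList l).answer w = true ↔ ∃ t ∈ l, t.value w = 0) ∧ ((ofList l).path w).length ≤ l.length := by
  induction l with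
  | nil => simp [ofList, Tree.answer, Tree.path]
  | cons t l ih =>
    simp only [ofList, Tree.answer, Tree.path, List.mem_cons, List.length_cons]
    by_cases h : t.value w = 0
    · simp [h, Tree.answer, Tree.path]
    · have h' : SignType.sign (t.value w) ≠ 0 := by rwa [Ne, sign_eq_zero_iff]
      rw [if_neg h']
      refine ⟨?_, by have := ih.2; omega⟩
      rw [ih.1]
      constructor
      · rintro ⟨t', h1, h2⟩
        exact ⟨t', Or.inr h1, h2⟩
      · rintro ⟨t', h1 | h1, h2⟩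
        · rw [h1] at h2
          exact absurd h2 h
        · exact ⟨t', h1, h2⟩

theorem ofList_all {P : Test n → Prop} (l : List (Test n)) (h : ∀ t ∈ l, P t) :
    (ofList l).All P := by
  induction l with
  | nil => trivial
  | cons t l ih =>
    refine ⟨h t (List.mem_cons_self ..), fun s => ?_⟩
    beta_reduce
    split_ifs
    · trivial
    · exact ih fun t' ht' => h t' (List.mem_cons_of_mem _ ht')

/-- **Exhaustive search.** -/
theorem upper (n : ℕ) : ∃ A : Algorithm n,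
    A.All (fun t => t.cells.card ≤ 3 ∧ (∀ i j, t.coef i j = 0 ∨ t.coef i j = 1) ∧ t.const = 0) ∧
    ∀ a b e w, IsInstance n e w → (A.Accepts a b e w ↔ HasZeroTriangle e w) ∧
      ((A.tree a b e w).path w).length ≤ n ^ 3 := by
  classical
  refine ⟨fun e _ _ => ofList (((univ : Finset (Fin n × Fin n × Fin n)).filter fun q =>
    q.1 ≠ q.2.1 ∧ q.2.1 ≠ q.2.2 ∧ q.1 ≠ q.2.2 ∧ e q.1 q.2.1 = true ∧ e q.2.1 q.2.2 = true ∧
      e q.1 q.2.2 = true).toList.map tst), ?_, ?_⟩
  · intro e lo hi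
    apply ofList_all
    intro t ht
    obtain ⟨q, -, rfl⟩ := List.mem_map.1 ht
    refine ⟨tst_cells q, fun i j => ?_, rfl⟩
    simp only [tst]
    split_ifs
    · exact Or.inr rfl
    · exact Or.inl rfl
  · intro a b e w _
    have h := ofList_spec (((univ : Finset (Fin n × Fin n × Fin n)).filter fun q =>
      q.1 ≠ q.2.1 ∧ q.2.1 ≠ q.2.2 ∧ q.1 ≠ q.2.2 ∧ e q.1 q.2.1 = true ∧ e q.2.1 q.2.2 = true ∧
        e q.1 q.2.2 = true).toList.map tst) w
    constructor
    · rw [Algorithm.Accepts, Algorithm.tree, h.1]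
      constructor
      · rintro ⟨t, ht, h0⟩
        obtain ⟨q, hq, rfl⟩ := List.mem_map.1 ht
        rw [Finset.mem_toList, mem_filter] at hq
        obtain ⟨-, g1, g2, g3, g4, g5, g6⟩ := hq
        rw [tst_value q g1 g2] at h0
        exact ⟨q.1, q.2.1, q.2.2, g1, g2, g3, g4, g5, g6, h0⟩
      · rintro ⟨i, j, k, g1, g2, g3, g4, g5, g6, h0⟩
        refine ⟨tst (i, j, k), List.mem_map.2 ⟨(i, j, k), ?_, rfl⟩, ?_⟩
        · rw [Finset.mem_toList, mem_filter]
          exact ⟨mem_univ _, g1, g2, g3, g4, g5, g6⟩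
        · rw [tst_value (i, j, k) g1 g2]
          exact h0
    · refine h.2.trans ?_
      rw [List.length_map, Finset.length_toList]
      refine (card_filter_le _ _).trans (le_of_eq ?_)
      rw [card_univ]
      simp only [Fintype.card_prod, Fintype.card_fin]
      ring

end upper

end Pool.Agent.K1H36.TW
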