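import Pool.Agent.K1H36.TW.Count

set_option autoImplicit false

open Finset

namespace Pool.Agent.K1H36.TW

section cells

variable {n m : ℕ} [NeZero m]

theorem lab_symm (a b : Fin n) : (lab a b : Option (Var m)) = lab b a := by
  unfold lab
  split_ifs <;> first | rfl | omega

theorem wt_symm (x : Var m → ℤ) (a b : Fin n) : wt x a b = wt x b a := by
  unfold wt
  rw [lab_symm]

theorem wt_of_lab {x : Var m → ℤ} {a b : Fin n} {v : Var m} (h : lab a b = some v) :
    wt x a b = x v := by
  unfold wt
  rw [h]

theorem wt_of_none {x : Var m → ℤ} {a b : Fin n} (h : (lab a b : Option (Var m)) = none) :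
    wt x a b = 0 := by
  unfold wt
  rw [h]

theorem wt_sum (x : Var m → ℤ) (a b : Fin n) :
    wt x a b = ∑ v : Var m, if lab a b = some v then x v else 0 := by
  rcases h : (lab a b : Option (Var m)) with _ | v
  · rw [wt_of_none h]
    simp
  · rw [wt_of_lab h]
    simp

/-- The coefficients of the edges. -/
def pb (m : ℕ) [NeZero m] (t : Test n) (v : Var m) : ℤ :=
  ∑ a, ∑ b, if (lab a b : Option (Var m)) = some v then t.coef a b else 0

theorem lin_eq (t : Test n) (x : Var m → ℤ) : t.lin (wt x) = ∑ v, pb m t v * x v := by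
  unfold Test.lin pb
  simp only [wt_sum, Finset.mul_sum, Finset.sum_mul]
  symm
  rw [Finset.sum_comm]
  refine Finset.sum_congr rfl fun a _ => ?_
  rw [Finset.sum_comm]
  refine Finset.sum_congr rfl fun b _ => Finset.sum_congr rfl fun v _ => ?_
  split_ifs <;> simp

/-- The sum of the absolute values of the coefficients of the edges. -/
theorem pb_norm (t : Test n) : ∑ v, |pb m t v| ≤ t.norm := by
  unfold pb Test.norm
  calc ∑ v : Var m, |∑ a, ∑ b, if (lab a b : Option (Var m)) = some v then t.coef a b else 0|
      ≤ ∑ v : Var m, ∑ a, ∑ b, if (lab a b : Option (Var m)) = some v then |t.coef a b| else 0 := by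
        refine Finset.sum_le_sum fun v _ => ?_
        refine (Finset.abs_sum_le_sum_abs _ _).trans (Finset.sum_le_sum fun a _ => ?_)
        refine (Finset.abs_sum_le_sum_abs _ _).trans (Finset.sum_le_sum fun b _ => ?_)
        split_ifs <;> simp
    _ = ∑ a, ∑ b, ∑ v : Var m, if (lab a b : Option (Var m)) = some v then |t.coef a b| else 0 := by
        rw [Finset.sum_comm]
        refine Finset.sum_congr rfl fun a _ => ?_
        rw [Finset.sum_comm]
    _ ≤ _ := by
        refine Finset.sum_le_sum fun a _ => Finset.sum_le_sum fun b _ => ?_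
        rcases h : (lab a b : Option (Var m)) with _ | v
        · simp
        · simp

theorem pb_support (t : Test n) :
    (univ.filter fun v => pb m t v ≠ 0).card ≤ t.cells.card := by
  classical
  have h1 : (univ.filter fun v => pb m t v ≠ 0).image (some : Var m → Option (Var m)) ⊆
      t.cells.image (fun z => lab z.1 z.2) := by
    intro u hu
    obtain ⟨v, hv, rfl⟩ := mem_image.1 hu
    have hv' := (mem_filter.1 hv).2
    rw [mem_image]
    by_contra hcon
    push Not at hcon
    apply hv'
    unfold pb
    refine Finset.sum_eq_zero fun a _ => Finset.sum_eq_zero fun b _ => ?_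
    by_cases h : (lab a b : Option (Var m)) = some v
    · rw [if_pos h]
      by_contra h0
      exact hcon (a, b) (mem_filter.2 ⟨mem_univ _, h0⟩) h
    · rw [if_neg h]
  have h2 := card_le_card h1
  rw [card_image_of_injective _ (Option.some_injective _)] at h2
  exact h2.trans card_image_le

theorem charged_iff (t : Test n) :
    Charged m t ↔ (∀ p, bd (pb m t) p = 0) ∧ ∃ v, pb m t v ≠ 0 := by
  classical
  unfold Charged
  constructor
  · rintro ⟨h1, x, hx⟩
    refine ⟨fun p => ?_, ?_⟩
    · have := h1 (Pi.single p 1)
      rw [lin_eq, sum_diff] at this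
      simpa [Pi.single_apply, Finset.sum_ite_eq] using this
    · by_contra hcon
      push Not at hcon
      apply hx
      rw [lin_eq]
      refine Finset.sum_eq_zero fun v _ => ?_
      rw [hcon v, zero_mul]
  · rintro ⟨h1, v, hv⟩
    refine ⟨fun z => ?_, Pi.single v 1, ?_⟩
    · rw [lin_eq, sum_diff]
      refine Finset.sum_eq_zero fun p _ => ?_
      rw [h1 p, mul_zero]
    · rw [lin_eq]
      simpa [Pi.single_apply] using hv

end cells

/-! ### Triangles -/

section triangles

variable {m : ℕ}

theorem sum_ind (T : Fin 3 → Fin m) (F : Var m → ℤ) :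
    ∑ v, ind T v * F v = ∑ s, F (s, T s, T (s + 1)) := by
  rw [Fintype.sum_prod_type]
  refine Finset.sum_congr rfl fun s _ => ?_
  rw [Fintype.sum_prod_type, Finset.sum_eq_single (T s), Finset.sum_eq_single (T (s + 1))]
  · simp [ind]
  · intro j _ hj
    rw [ind, if_neg (fun h => hj h.2), zero_mul]
  · intro h; exact absurd (mem_univ _) h
  · intro i _ hi
    refine Finset.sum_eq_zero fun j _ => ?_
    rw [ind, if_neg (fun h => hi h.1), zero_mul]
  · intro h; exact absurd (mem_univ _) h

/-- Two different triangles have at most one edge in common. -/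
theorem inter (T T' : Fin 3 → Fin m) (h : T ≠ T') :
    0 ≤ ∑ v, ind T v * ind T' v ∧ ∑ v, ind T v * ind T' v ≤ 1 := by
  rw [sum_ind, Fin.sum_univ_three]
  simp only [ind]
  have h2 : (2 : Fin 3) + 1 = 0 := by decide
  have h1 : (1 : Fin 3) + 1 = 2 := by decide
  have h0 : (0 : Fin 3) + 1 = 1 := by decide
  rw [h0, h1, h2]
  by_cases a0 : T 0 = T' 0 <;> by_cases a1 : T 1 = T' 1 <;> by_cases a2 : T 2 = T' 2 <;>
    simp only [a0, a1, a2, and_true, and_false, if_true, if_false, true_and, false_and] <;>
    first
    | norm_num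
    | skip
  exact absurd (funext fun s => by fin_cases s <;> assumption) h

theorem ind_injective {T T' : Fin 3 → Fin m} {τ τ' : ℤ} (hτ : τ ≠ 0)
    (h : ∀ v, τ * ind T v = τ' * ind T' v) : T = T' := by
  by_contra hne
  have h1 := inter T T' hne
  have h2 : τ * ∑ v, ind T v * ind T v = τ' * ∑ v, ind T v * ind T' v := by
    rw [Finset.mul_sum, Finset.mul_sum]
    refine Finset.sum_congr rfl fun v _ => ?_
    have := h v
    linear_combination (ind T v) * this
  have h3 : τ * ∑ v, ind T v * ind T' v = τ' * ∑ v, ind T' v * ind T' v := by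
    rw [Finset.mul_sum, Finset.mul_sum]
    refine Finset.sum_congr rfl fun v _ => ?_
    have := h v
    linear_combination (ind T' v) * this
  have h4 : ∀ T : Fin 3 → Fin m, ∑ v, ind T v * ind T v = 3 := by
    intro T
    rw [sum_ind]
    simp [ind]
  rw [h4] at h2 h3
  obtain ⟨h5, h6⟩ := h1
  interval_cases h7 : ∑ v, ind T v * ind T' v <;> omega

end triangles

end Pool.Agent.K1H36.TW
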