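import Pool.Agent.K1H36.TW.Inst

set_option autoImplicit false

open Finset

namespace Pool.Agent.K1H36.TW

/-! ### The instances -/

section inst

variable {n m : ℕ} [NeZero m]

theorem flg_symm (a b : Fin n) : flg m a b = flg m b a := by
  unfold flg
  rw [lab_symm]

theorem flg_self (a : Fin n) : flg m a a = false := by
  unfold flg lab
  split_ifs <;> first | rfl | omega

theorem isInstance_wt (x : Var m → ℤ) (hx : ∀ v, |x v| ≤ (n : ℤ) ^ 300) :
    IsInstance n (flg m) (wt x) := by
  refine ⟨flg_symm, flg_self, wt_symm x, fun a b => ?_⟩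
  rcases h : (lab a b : Option (Var m)) with _ | v
  · rw [wt_of_none h, abs_zero]
    positivity
  · rw [wt_of_lab h]
    exact hx v

/-- In a triangle of the tripartite graph the sum is the sum over a triangle of edges. -/
theorem exists_of_zero (x : Var m → ℤ) (h : HasZeroTriangle (flg (n := n) m) (wt x)) :
    ∃ T : Fin 3 → Fin m, ∑ s, x (s, T s, T (s + 1)) = 0 := by
  obtain ⟨a, b, c, -, -, -, h1, h2, h3, h4⟩ := h
  have hsum : ∀ i j k : Fin m, x (0, i, j) + x (1, j, k) + x (2, k, i) = 0 →
      ∃ T : Fin 3 → Fin m, ∑ s, x (s, T s, T (s + 1)) = 0 := by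
    intro i j k hijk
    refine ⟨![i, j, k], ?_⟩
    rw [Fin.sum_univ_three]
    exact hijk
  unfold flg lab at h1 h2 h3
  unfold wt lab at h4
  have q1 : (part m a = 0 ∧ (part m b = 1 ∨ part m b = 2)) ∨
      (part m a = 1 ∧ (part m b = 0 ∨ part m b = 2)) ∨
      (part m a = 2 ∧ (part m b = 0 ∨ part m b = 1)) := by
    by_contra hcon
    rw [if_neg (by omega), if_neg (by omega), if_neg (by omega), if_neg (by omega),
      if_neg (by omega), if_neg (by omega)] at h1
    simp at h1
  have q2 : (part m b = 0 ∧ (part m c = 1 ∨ part m c = 2)) ∨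
      (part m b = 1 ∧ (part m c = 0 ∨ part m c = 2)) ∨
      (part m b = 2 ∧ (part m c = 0 ∨ part m c = 1)) := by
    by_contra hcon
    rw [if_neg (by omega), if_neg (by omega), if_neg (by omega), if_neg (by omega),
      if_neg (by omega), if_neg (by omega)] at h2
    simp at h2
  have q3 : (part m a = 0 ∧ (part m c = 1 ∨ part m c = 2)) ∨
      (part m a = 1 ∧ (part m c = 0 ∨ part m c = 2)) ∨
      (part m a = 2 ∧ (part m c = 0 ∨ part m c = 1)) := by
    by_contra hcon
    rw [if_neg (by omega), if_neg (by omega), if_neg (by omega), if_neg (by omega),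
      if_neg (by omega), if_neg (by omega)] at h3
    simp at h3
  rcases q1 with ⟨ha, hb | hb⟩ | ⟨ha, hb | hb⟩ | ⟨ha, hb | hb⟩
  · have hc : part m c = 2 := by omega
    simp [ha, hb, hc] at h4
    exact hsum (idx a) (idx b) (idx c) (by linarith)
  · have hc : part m c = 1 := by omega
    simp [ha, hb, hc] at h4
    exact hsum (idx a) (idx c) (idx b) (by linarith)
  · have hc : part m c = 2 := by omega
    simp [ha, hb, hc] at h4
    exact hsum (idx b) (idx a) (idx c) (by linarith)
  · have hc : part m c = 0 := by omega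
    simp [ha, hb, hc] at h4
    exact hsum (idx c) (idx a) (idx b) (by linarith)
  · have hc : part m c = 1 := by omega
    simp [ha, hb, hc] at h4
    exact hsum (idx b) (idx c) (idx a) (by linarith)
  · have hc : part m c = 0 := by omega
    simp [ha, hb, hc] at h4
    exact hsum (idx c) (idx b) (idx a) (by linarith)

theorem zero_of_exists (hm : 3 * m ≤ n) (x : Var m → ℤ) (T : Fin 3 → Fin m)
    (h : ∑ s, x (s, T s, T (s + 1)) = 0) : HasZeroTriangle (flg (n := n) m) (wt x) := by
  have hm0 : 0 < m := Nat.pos_of_ne_zero (NeZero.ne m)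
  rw [Fin.sum_univ_three] at h
  have h2 : (2 : Fin 3) + 1 = 0 := by decide
  have h1 : (1 : Fin 3) + 1 = 2 := by decide
  have h0 : (0 : Fin 3) + 1 = 1 := by decide
  rw [h0, h1, h2] at h
  have hi := (T 0).2
  have hj := (T 1).2
  have hk := (T 2).2
  let a : Fin n := ⟨(T 0).1, by omega⟩
  let b : Fin n := ⟨(T 1).1 + m, by omega⟩
  let c : Fin n := ⟨(T 2).1 + m * 2, by omega⟩
  have pa : part m a = 0 := Nat.div_eq_of_lt hi
  have pb : part m b = 1 := by
    change ((T 1).1 + m) / m = 1
    rw [Nat.add_div_right _ hm0, Nat.div_eq_of_lt hj]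
  have pc : part m c = 2 := by
    change ((T 2).1 + m * 2) / m = 2
    rw [Nat.add_mul_div_left _ _ hm0, Nat.div_eq_of_lt hk]
  have ia : (idx a : Fin m) = T 0 := Fin.ext (Nat.mod_eq_of_lt hi)
  have ib : (idx b : Fin m) = T 1 := Fin.ext (by
    change ((T 1).1 + m) % m = (T 1).1
    rw [Nat.add_mod_right, Nat.mod_eq_of_lt hj])
  have ic : (idx c : Fin m) = T 2 := Fin.ext (by
    change ((T 2).1 + m * 2) % m = (T 2).1
    rw [Nat.add_mul_mod_self_left, Nat.mod_eq_of_lt hk])
  have lab1 : (lab a b : Option (Var m)) = some (0, T 0, T 1) := by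
    unfold lab
    rw [if_pos ⟨pa, pb⟩, ia, ib]
  have lab2 : (lab b c : Option (Var m)) = some (1, T 1, T 2) := by
    unfold lab
    rw [if_neg (by omega), if_neg (by omega), if_pos ⟨pb, pc⟩, ib, ic]
  have lab3 : (lab a c : Option (Var m)) = some (2, T 2, T 0) := by
    rw [lab_symm]
    unfold lab
    rw [if_neg (by omega), if_neg (by omega), if_neg (by omega), if_neg (by omega),
      if_pos ⟨pc, pa⟩, ia, ic]
  refine ⟨a, b, c, ?_, ?_, ?_, ?_, ?_, ?_, ?_⟩
  · intro h'; rw [h'] at pa; omega
  · intro h'; rw [h'] at pb; omega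
  · intro h'; rw [h'] at pa; omega
  · unfold flg; rw [lab1]; rfl
  · unfold flg; rw [lab2]; rfl
  · unfold flg; rw [lab3]; rfl
  · rw [wt_of_lab lab1, wt_of_lab lab2, wt_of_lab lab3]
    linarith

end inst

/-! ### Trees -/

namespace Tree

variable {n : ℕ}

/-- If no test on the way distinguishes two inputs then the answers are the same. -/
theorem answer_eq (T : Tree n) (w w' : Fin n → Fin n → ℤ)
    (h : ∀ t ∈ T.path w, SignType.sign (t.value w) = SignType.sign (t.value w')) :
    T.answer w = T.answer w' := by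
  induction T with
  | leaf a => rfl
  | node t next ih =>
    have h1 := h t (by simp [path])
    simp only [answer]
    rw [← h1]
    exact ih _ fun t' ht' => h t' (by simp only [path, List.mem_cons]; exact Or.inr ht')

theorem all_path {P : Test n → Prop} (T : Tree n) (hT : T.All P) (w : Fin n → Fin n → ℤ) :
    ∀ t ∈ T.path w, P t := by
  induction T with
  | leaf a => simp [path]
  | node t next ih =>
    intro t' ht'
    simp only [path, List.mem_cons] at ht'
    rcases ht' with rfl | ht'
    · exact hT.1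
    · exact ih _ (hT.2 _) t' ht'

end Tree

/-! ### The main lemma -/

section main

variable {n m : ℕ} [NeZero m]

/-- The weights without a triangle of sum zero. -/
def x1 (b k : ℕ) (z : Fin 3 × Fin m → ℤ) (v : Var m) : ℤ := 2 ^ b * diff z v + 2 ^ k

/-- The weights where the triangle `T` has sum zero. -/
def xT (b k : ℕ) (z : Fin 3 × Fin m → ℤ) (T : Fin 3 → Fin m) (v : Var m) : ℤ :=
  2 ^ b * diff z v + 2 ^ k * (1 - ind T v)

theorem sign_of_large {u v d : ℤ} (h : |v| < d) (hu : u ≠ 0) :
    SignType.sign (d * u + v) = SignType.sign u := by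
  have h1 := abs_lt.1 h
  rcases lt_or_gt_of_ne hu with h2 | h2
  · rw [sign_neg h2, sign_neg]
    nlinarith
  · rw [sign_pos h2, sign_pos]
    nlinarith

theorem ind_le (T : Fin 3 → Fin m) (v : Var m) : ind T v = 0 ∨ ind T v = 1 := by
  unfold ind
  split_ifs
  · exact Or.inr rfl
  · exact Or.inl rfl

theorem sum_bound {B : ℕ} {c F : Var m → ℤ} (hB : ∑ v, |c v| ≤ B) (hF : ∀ v, |F v| ≤ 1) :
    |∑ v, c v * F v| ≤ B := by
  refine le_trans (Finset.abs_sum_le_sum_abs _ _) (le_trans (Finset.sum_le_sum fun v _ => ?_) hB)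
  rw [abs_mul]
  have := hF v
  nlinarith [abs_nonneg (c v), abs_nonneg (F v)]

/-- **Main lemma.** A test that distinguishes the two instances is a multiple of the triangle. -/
theorem distinguish {S B b k : ℕ} (hk : B < 2 ^ k) (hb : B * (2 ^ k + 1) < 2 ^ b)
    {z : Fin 3 × Fin m → ℤ}
    (hz : ∀ c : Var m → ℤ, (univ.filter fun v => c v ≠ 0).card ≤ S → (∀ v, |c v| ≤ B) →
        ∑ v, c v * diff z v = 0 → ∀ p, bd c p = 0)
    {T : Fin 3 → Fin m} {t : Test n} (ht : Allowed m S B t)
    (hne : SignType.sign (t.value (wt (x1 b k z))) ≠ SignType.sign (t.value (wt (xT b k z T)))) :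
    ∃ τ : ℤ, τ ≠ 0 ∧ ∀ v, pb m t v = τ * ind T v := by
  obtain ⟨ht1, ht2, ht3, ht4⟩ := ht
  obtain ⟨c, hc⟩ : ∃ c, c = pb m t := ⟨_, rfl⟩
  have hnorm : ∑ v, |c v| ≤ B := by rw [hc]; exact (pb_norm t).trans ht2
  have hcb : ∀ v, |c v| ≤ B := fun v =>
    (Finset.single_le_sum (f := fun v => |c v|) (fun v _ => abs_nonneg _) (mem_univ v)).trans hnorm
  have hcs : (univ.filter fun v => c v ≠ 0).card ≤ t.cells.card := by rw [hc]; exact pb_support t
  obtain ⟨Λ, hΛ⟩ : ∃ Λ, Λ = ∑ v, c v * diff z v := ⟨_, rfl⟩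
  have v1 : t.value (wt (x1 b k z)) = 2 ^ b * Λ + (2 ^ k * ∑ v, c v * 1 + t.const) := by
    rw [Test.value, lin_eq, ← hc, hΛ, Finset.mul_sum, Finset.mul_sum, ← add_assoc,
      ← Finset.sum_add_distrib]
    congr 1
    refine Finset.sum_congr rfl fun v _ => ?_
    simp only [x1]
    ring
  have vT : t.value (wt (xT b k z T)) =
      2 ^ b * Λ + (2 ^ k * ∑ v, c v * (1 - ind T v) + t.const) := by
    rw [Test.value, lin_eq, ← hc, hΛ, Finset.mul_sum, Finset.mul_sum, ← add_assoc,
      ← Finset.sum_add_distrib]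
    congr 1
    refine Finset.sum_congr rfl fun v _ => ?_
    simp only [xT]
    ring
  have hb' : (B : ℤ) * (2 ^ k + 1) < 2 ^ b := by exact_mod_cast hb
  have hk' : (B : ℤ) < 2 ^ k := by exact_mod_cast hk
  have hsmall : ∀ F : Var m → ℤ, (∀ v, |F v| ≤ 1) →
      |2 ^ k * ∑ v, c v * F v + t.const| < 2 ^ b := by
    intro F hF
    have h1 := sum_bound hnorm hF
    calc |2 ^ k * ∑ v, c v * F v + t.const| ≤ |2 ^ k * ∑ v, c v * F v| + |t.const| :=
          abs_add_le _ _
      _ ≤ 2 ^ k * B + B := by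
          rw [abs_mul, abs_of_nonneg (by positivity : (0 : ℤ) ≤ 2 ^ k)]
          have : (0 : ℤ) ≤ 2 ^ k := by positivity
          nlinarith
      _ < 2 ^ b := by linarith
  have hF1 : ∀ v : Var m, |(1 : ℤ)| ≤ 1 := fun _ => by simp
  have hF2 : ∀ v : Var m, |1 - ind T v| ≤ 1 := by
    intro v
    rcases ind_le T v with h | h <;> rw [h] <;> simp
  by_cases h0 : Λ = 0
  swap
  · exfalso
    apply hne
    rw [v1, vT, sign_of_large (hsmall _ hF1) h0, sign_of_large (hsmall _ hF2) h0]
  have hbd : ∀ p, bd c p = 0 := hz c (hcs.trans ht1) hcb (by rw [← hΛ]; exact h0)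
  by_cases hc0 : ∃ v, c v ≠ 0
  swap
  · exfalso
    push Not at hc0
    apply hne
    rw [v1, vT, h0]
    simp [hc0]
  have h3 : (univ.filter fun v => c v ≠ 0).card ≤ 3 :=
    hcs.trans (ht4 ((charged_iff t).2 (by rw [← hc]; exact ⟨hbd, hc0⟩)))
  rcases structure_lemma hbd h3 with h | ⟨T', τ, hτ, hT'⟩
  · obtain ⟨v, hv⟩ := hc0
    rw [h] at hv
    exact absurd rfl hv
  refine ⟨τ, hτ, fun v => ?_⟩
  rw [← hc, hT' v]
  by_contra hTT
  have hne' : T' ≠ T := by
    rintro rfl
    exact hTT rfl
  apply hne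
  have e1 : ∑ v, c v * 1 = τ * 3 := by
    have h5 : ∀ v, c v * 1 = τ * (ind T' v * ind T' v) := by
      intro v
      rw [hT' v]
      rcases ind_le T' v with h | h <;> rw [h] <;> ring
    have h6 : ∑ v, ind T' v * ind T' v = 3 := by
      rw [sum_ind]
      simp [ind]
    simp only [h5]
    rw [← Finset.mul_sum, h6]
  have e2 : ∑ v, c v * (1 - ind T v) = τ * (3 - ∑ v, ind T' v * ind T v) := by
    have h5 : ∀ v, c v * (1 - ind T v) = c v * 1 - τ * (ind T' v * ind T v) := by
      intro v
      rw [hT' v]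
      ring
    simp only [h5]
    rw [Finset.sum_sub_distrib, e1, ← Finset.mul_sum]
    ring
  obtain ⟨i1, i2⟩ := inter T' T hne'
  obtain ⟨r, hr⟩ : ∃ r, r = ∑ v, ind T' v * ind T v := ⟨_, rfl⟩
  rw [← hr] at i1 i2 e2
  have hconst : |t.const| < 2 ^ k := lt_of_le_of_lt ht3 hk'
  have key : ∀ α : ℤ, 1 ≤ α → SignType.sign (2 ^ k * (τ * α) + t.const) = SignType.sign τ := by
    intro α hα
    rw [sign_of_large hconst (mul_ne_zero hτ (by omega))]
    rw [sign_mul, sign_pos (show (0 : ℤ) < α by omega), mul_one]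
  rw [v1, vT, h0, mul_zero, zero_add, zero_add, e1, e2, key 3 (by norm_num),
    key (3 - r) (by omega)]

open Classical in
/-- The cost is at least the number of the triangles for which the answers are different. -/
theorem cost_bound {S B b k : ℕ} (hk : B < 2 ^ k) (hb : B * (2 ^ k + 1) < 2 ^ b)
    {z : Fin 3 × Fin m → ℤ}
    (hz : ∀ c : Var m → ℤ, (univ.filter fun v => c v ≠ 0).card ≤ S → (∀ v, |c v| ≤ B) →
        ∑ v, c v * diff z v = 0 → ∀ p, bd c p = 0)
    (τ : Tree n) (hτ : τ.All (Allowed m S B)) :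
    (univ.filter fun T : Fin 3 → Fin m => τ.answer (wt (x1 b k z)) ≠
      τ.answer (wt (xT b k z T))).card ≤ cost m τ (wt (x1 b k z)) := by
  obtain ⟨L, hL⟩ : ∃ L, L = (τ.path (wt (x1 b k z))).filter fun t => decide (Charged m t) :=
    ⟨_, rfl⟩
  have hcost : cost m τ (wt (x1 b k z)) = L.length := by rw [cost, hL]
  rw [hcost]
  obtain ⟨g, hg⟩ : ∃ g : Test n → Option (Fin 3 → Fin m), g = fun t =>
    if h : ∃ T : Fin 3 → Fin m, ∃ c : ℤ, c ≠ 0 ∧ ∀ v, pb m t v = c * ind T v then some h.choose
      else none := ⟨_, rfl⟩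
  have h1 : (univ.filter fun T : Fin 3 → Fin m => τ.answer (wt (x1 b k z)) ≠
      τ.answer (wt (xT b k z T))).image some ⊆ (L.map g).toFinset := by
    intro u hu
    obtain ⟨T, hT, rfl⟩ := mem_image.1 hu
    have hT' := (mem_filter.1 hT).2
    by_contra hcon
    apply hT'
    apply Tree.answer_eq
    intro t ht
    by_contra hne
    obtain ⟨c, hc0, hc⟩ := distinguish hk hb hz (Tree.all_path τ hτ _ t ht) hne
    apply hcon
    rw [List.mem_toFinset, List.mem_map]
    refine ⟨t, ?_, ?_⟩
    · rw [hL, List.mem_filter]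
      refine ⟨ht, ?_⟩
      rw [decide_eq_true_eq, charged_iff]
      refine ⟨fun p => ?_, ?_⟩
      · -- triangles have no boundary
        have h2 : bd (pb m t) p = c * bd (ind T) p := by
          unfold bd
          rw [Finset.mul_sum]
          refine Finset.sum_congr rfl fun v _ => ?_
          rw [hc v]
          ring
        have h3 : bd (ind T) p = 0 := by
          have h4 : ∀ z : Fin 3 × Fin m → ℤ, ∑ v, ind T v * diff z v = 0 := by
            intro z
            rw [sum_ind, Fin.sum_univ_three]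
            simp only [diff]
            have h2 : (2 : Fin 3) + 1 = 0 := by decide
            have h1 : (1 : Fin 3) + 1 = 2 := by decide
            have h0 : (0 : Fin 3) + 1 = 1 := by decide
            rw [h0, h1, h2]
            ring
          have h5 := h4 (Pi.single p 1)
          rw [sum_diff] at h5
          simpa [Pi.single_apply] using h5
        rw [h2, h3, mul_zero]
      · refine ⟨(0, T 0, T 1), ?_⟩
        rw [hc]
        have : ind T ((0, T 0, T 1) : Var m) = 1 := by
          unfold ind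
          rw [if_pos]
          exact ⟨rfl, rfl⟩
        rw [this, mul_one]
        exact hc0
    · have hex : ∃ T : Fin 3 → Fin m, ∃ c : ℤ, c ≠ 0 ∧ ∀ v, pb m t v = c * ind T v :=
        ⟨T, c, hc0, hc⟩
      rw [hg]
      simp only [dif_pos hex]
      obtain ⟨c', hc'0, hc'⟩ := hex.choose_spec
      congr 1
      exact ind_injective hc'0 (fun v => by rw [← hc', hc])
  have h2 := card_le_card h1
  rw [card_image_of_injective _ (Option.some_injective _)] at h2
  refine h2.trans ((List.toFinset_card_le _).trans ?_)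
  rw [List.length_map]

end main

end Pool.Agent.K1H36.TW
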